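import Mathlib
import Pool.Graph.R_seed8.Y920.EP.Stm
import Pool.Agent.Helper66.ETC.Defs
import Pool.Agent.Helper59.EA.Lift

set_option autoImplicit false

/-! # Elementary Type Conjecture: places and families of places (interface) -/

namespace Pool.Agent.ETC

open Pool.Agent.Y920.EP (nmG)

section

variable {F : Type} [Field F]

/-- places of residue characteristic different from `p`: the value group is not `p`-divisible and
`F*/T(R)` is not cyclic -/
structure V1 (p : ℕ) (ζ : F) (R : ValuationSubring F) : Prop where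
  pv : R.valuation (p : F) = 1
  nu : ∃ c : Fˣ, ∀ f : Fˣ, R.valuation ((c * f ^ p : Fˣ) : F) ≠ 1
  nc : ∀ g : Fˣ, ∃ x : Fˣ, ∀ n : ℕ, x / g ^ n ∉ TR p ζ R

/-- `p`-adic places: finite residue field of characteristic `p`, a uniformizer `π` with powers
below `|p|`, and the value group modulo `|π|` is `p`-divisible -/
structure V2 (p : ℕ) (R : ValuationSubring F) : Prop where
  pv : R.valuation (p : F) < 1
  fin : Finite (IsLocalRing.ResidueField R)
  unif : ∃ π : Fˣ, R.valuation (π : F) < 1 ∧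
    (∀ x : F, R.valuation x < 1 → R.valuation x ≤ R.valuation (π : F)) ∧
    (∃ e : ℕ, R.valuation (π : F) ^ e ≤ R.valuation (p : F)) ∧
    ∀ x : Fˣ, ∃ (f : Fˣ) (n : ℕ), R.valuation (x : F) =
      R.valuation (f : F) ^ p * R.valuation (π : F) ^ n

/-- places (`p` odd) -/
def Pl (p : ℕ) (ζ : F) (R : ValuationSubring F) : Prop := V1 p ζ R ∨ V2 p R

/-- the norm relation: `b` is a norm from `F[X]/(X ^ p - a)` -/
def Nm (p : ℕ) (a b : Fˣ) : Prop := b ∈ nmG p a

/-- `u` and `u'` have the same component at `i`, and the other components of `u'` are trivial -/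
def Cpt {I : Type} (T : I → Subgroup Fˣ) (i : I) (u u' : Fˣ) : Prop :=
  u / u' ∈ T i ∧ ∀ j, j ≠ i → u' ∈ T j

/-- an orthogonal family of groups of local `p`-th powers -/
structure Orth (p : ℕ) {I : Type} (T : I → Subgroup Fˣ) : Prop where
  pow : ∀ i, ∀ c : Fˣ, c ^ p ∈ T i
  onto : ∀ u : I → Fˣ, ∃ y : Fˣ, ∀ i, y / u i ∈ T i
  rad : ∀ t : Fˣ, (∀ i, t ∈ T i) → ∀ b : Fˣ, Nm p t b ∧ Nm p b t
  orth : ∀ i, ∀ a t : Fˣ, (∀ j, j ≠ i → a ∈ T j) → t ∈ T i → Nm p a t ∧ Nm p t a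
  pr : ∀ u v : Fˣ, (u : F) + v = 1 → ∀ i, ∀ u' v' : Fˣ, Cpt T i u u' → Cpt T i v v' →
    Nm p u' v'

/-- the family of the places of `F` (`p` odd) -/
structure Fam (p : ℕ) (ζ : F) {I : Type} (R : I → ValuationSubring F) : Prop where
  pl : ∀ i, Pl p ζ (R i)
  orth : Orth p fun i => TR p ζ (R i)

end

/-! ### characters, local and global symbols -/

section

variable {F K : Type} [Field F] [Field K] [Algebra F K]

open Pool.Agent.Helper59.EA (IsCoc CobOn Cob)

/-- `χ` is the Kummer character of `a` -/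
def IsChi (p : ℕ) (ζ : F) (a : Fˣ) (χ : (K ≃ₐ[F] K) → ZMod p) : Prop :=
  ∀ α : K, α ^ p = algebraMap F K (a : F) → ∀ g : K ≃ₐ[F] K,
    g α = algebraMap F K ζ ^ (χ g).val * α

/-- the symbol of `a` and `b` is zero on the subgroup `Z` -/
def LocZ (p : ℕ) (ζ : F) (Z : Subgroup (K ≃ₐ[F] K)) (a b : Fˣ) : Prop :=
  ∀ χ ψ : (K ≃ₐ[F] K) → ZMod p, IsChi p ζ a χ → IsChi p ζ b ψ →
    CobOn p Z fun g h => χ g * ψ h

/-- the symbol of `a` and `b` is zero -/
def Glo (p : ℕ) (K : Type) [Field K] [Algebra F K] (ζ : F) (a b : Fˣ) : Prop :=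
  ∀ χ ψ : (K ≃ₐ[F] K) → ZMod p, IsChi p ζ a χ → IsChi p ζ b ψ → Cob p fun g h => χ g * ψ h

/-- the `p`-th roots of `t` are fixed by `Z` -/
def Fx (p : ℕ) (Z : Subgroup (K ≃ₐ[F] K)) (t : Fˣ) : Prop :=
  ∀ α : K, α ^ p = algebraMap F K (t : F) → ∀ σ ∈ Z, σ α = α

/-- `T` is the group of the elements whose `p`-th roots are fixed by `Z`, and norms at `Z` are
norms up to `T` -/
structure GoodZ (p : ℕ) (ζ : F) (Z : Subgroup (K ≃ₐ[F] K)) (T : Subgroup Fˣ) : Prop where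
  mem : ∀ t : Fˣ, t ∈ T ↔ Fx p Z t
  lift : ∀ a b : Fˣ, LocZ p ζ Z a b → a ∈ T ∨ b ∈ T ∨ ∃ t ∈ T, Nm p a (b * t)

end

/-- NORMCUP over `F` -/
def S_NORMCUP : Prop := ∀ (p : ℕ) [Fact p.Prime] (F K : Type) [Field F] [Field K] [Algebra F K]
  (ζ : F), IsPrimitiveRoot ζ p → PCl p F K → ∀ a b : Fˣ, Nm p a b ↔ Glo p K ζ a b

/-- XF: local-global principle for symbols -/
def S_XF : Prop := ∀ (p : ℕ) [Fact p.Prime] (F K : Type) [Field F] [Field K] [Algebra F K]
  (ζ : F), IsPrimitiveRoot ζ p → PCl p F K → ∀ (I : Type) [Finite I]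
    (T : I → Subgroup Fˣ) (Z : I → Subgroup (K ≃ₐ[F] K)), Orth p T →
      (∀ i, GoodZ p ζ (Z i) (T i)) → ∀ a b : Fˣ, (∀ i, LocZ p ζ (Z i) a b) → Nm p a b

/-- V1: the decomposition field is immediate, with precision `|1 - ζ|^p` -/
def S_V1 : Prop := ∀ (p : ℕ) [Fact p.Prime] (F K : Type) [Field F] [Field K] [Algebra F K]
  (ζ : F), IsPrimitiveRoot ζ p → PCl p F K → ∀ W : ValuationSubring K,
    Top ζ (W.comap (algebraMap F K)) → ∀ x : K, x ≠ 0 → (∀ σ ∈ Dec F W, σ x = x) →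
      ∃ (f : Fˣ) (m : K), W.valuation m < W.valuation (algebraMap F K (1 - ζ)) ^ p ∧
        x = algebraMap F K (f : F) * (1 + m)

/-- V3: the local `p`-th powers -/
def S_V3 : Prop := ∀ (p : ℕ) [Fact p.Prime] (F K : Type) [Field F] [Field K] [Algebra F K]
  (ζ : F), IsPrimitiveRoot ζ p → PCl p F K → ∀ W : ValuationSubring K,
    Top ζ (W.comap (algebraMap F K)) →
      (∀ t : Fˣ, t ∈ TR p ζ (W.comap (algebraMap F K)) ↔ Fx p (Dec F W) t) ∧
      ∀ x : K, x ≠ 0 → (∀ σ ∈ Dec F W, σ x = x) → ∃ (t : Fˣ) (l : K),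
        (∀ σ ∈ Dec F W, σ l = l) ∧ x = algebraMap F K (t : F) * l ^ p

/-- NLIFT (and V3): places are good -/
def S_NLIFT : Prop := ∀ (p : ℕ) [Fact p.Prime] (F K : Type) [Field F] [Field K] [Algebra F K]
  (ζ : F), IsPrimitiveRoot ζ p → PCl p F K → ∀ W : ValuationSubring K,
    Top ζ (W.comap (algebraMap F K)) →
      GoodZ p ζ (Dec F W) (TR p ζ (W.comap (algebraMap F K)))

/-- places are top -/
def S_PLTOP : Prop := ∀ (p : ℕ) [Fact p.Prime] (F : Type) [Field F] (ζ : F),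
  IsPrimitiveRoot ζ p → ∀ R : ValuationSubring F, Pl p ζ R → Top ζ R

/-- FAM: existence of the family, `p` odd -/
def S_FAM : Prop := ∀ (p : ℕ) [Fact p.Prime], p ≠ 2 → ∀ (F : Type) [Field F] (ζ : F),
  IsPrimitiveRoot ζ p → (powMonoidHom p : Fˣ →* Fˣ).range.index ≠ 0 →
    ∃ (I : Type) (_ : Finite I) (R : I → ValuationSubring F), Fam p ζ R

/-- SINGLE -/
def S_SINGLE : Prop := ∀ (p : ℕ) [Fact p.Prime], p ≠ 2 → ∀ (F K : Type) [Field F] [Field K]
  [Algebra F K] (ζ : F), IsPrimitiveRoot ζ p → PCl p F K →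
    ∀ (I : Type) [Finite I] (R : I → ValuationSubring F), Fam p ζ R →
      ∀ W : ValuationSubring K, Pl p ζ (W.comap (algebraMap F K)) →
        ∃ i, TR p ζ (R i) ≤ TR p ζ (W.comap (algebraMap F K))

/-- COMP: every place is covered by one of the family, up to conjugacy -/
def S_COMP : Prop := ∀ (p : ℕ) [Fact p.Prime], p ≠ 2 → ∀ (F K : Type) [Field F] [Field K]
  [Algebra F K] (ζ : F), IsPrimitiveRoot ζ p → PCl p F K →
    (powMonoidHom p : Fˣ →* Fˣ).range.index ≠ 0 →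
    ∃ (I : Type) (_ : Finite I) (W : I → ValuationSubring K),
      Fam p ζ (fun i => (W i).comap (algebraMap F K)) ∧
      ∀ V : ValuationSubring K, Pl p ζ (V.comap (algebraMap F K)) →
        ∃ (i : I) (g : K ≃ₐ[F] K), ∀ σ ∈ Dec F V, g⁻¹ * σ * g ∈ Dec F (W i)

/-- STAR: places restrict to places -/
def S_STAR : Prop := ∀ (p : ℕ) [Fact p.Prime], p ≠ 2 → ∀ (F E : Type) [Field F] [Field E]
  [Algebra F E] [FiniteDimensional F E] [IsGalois F E] (ζ : F), IsPrimitiveRoot ζ p →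
    Module.finrank F E = p → (powMonoidHom p : Fˣ →* Fˣ).range.index ≠ 0 →
    ∀ R : ValuationSubring E, Pl p (algebraMap F E ζ) R → Pl p ζ (R.comap (algebraMap F E))

/-- restriction of scalars of automorphisms -/
def resS (F E K : Type) [Field F] [Field E] [Field K] [Algebra F E] [Algebra E K] [Algebra F K]
    [IsScalarTower F E K] : (K ≃ₐ[E] K) →* (K ≃ₐ[F] K) where
  toFun σ := σ.restrictScalars F
  map_one' := rfl
  map_mul' _ _ := rfl

/-- LG: the local-global principle for cocycles, for any class `D` of subgroups which goes down in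
cyclic extensions of degree `p` and satisfies the local-global principle for symbols; `C` is a
condition on the ground field (finiteness of `F*/F*^p`) which goes up -/
def S_LG : Prop := ∀ (p : ℕ) [Fact p.Prime] (K : Type) [Field K]
  (C : ∀ (F : Type) [Field F], Prop)
  (D : ∀ (F : Type) [Field F] [Algebra F K], Subgroup (K ≃ₐ[F] K) → Prop),
  -- C goes up
  (∀ (F E : Type) [Field F] [Field E] [Algebra F E] [FiniteDimensional F E] [IsGalois F E],
    (∃ ζ : F, IsPrimitiveRoot ζ p) → Module.finrank F E = p → C F → C E) →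
  -- D goes down
  (∀ (F E : Type) [Field F] [Field E] [Algebra F E] [Algebra E K] [Algebra F K]
    [IsScalarTower F E K] [FiniteDimensional F E] [IsGalois F E], (∃ ζ : F, IsPrimitiveRoot ζ p) →
    PCl p F K → Module.finrank F E = p → C F → ∀ Z : Subgroup (K ≃ₐ[E] K), D E Z →
      ∃ Z' : Subgroup (K ≃ₐ[F] K), D F Z' ∧ Z.map (resS F E K) ≤ Z') →
  -- symbols
  (∀ (F : Type) [Field F] [Algebra F K] (ζ : F), IsPrimitiveRoot ζ p → PCl p F K → C F →
    ∀ a b : Fˣ, (∀ Z : Subgroup (K ≃ₐ[F] K), D F Z → LocZ p ζ Z a b) → Glo p K ζ a b) →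
  ∀ (F : Type) [Field F] [Algebra F K], (∃ ζ : F, IsPrimitiveRoot ζ p) → PCl p F K → C F →
    ∀ N : Subgroup (K ≃ₐ[F] K), N.Normal → IsOpen (N : Set (K ≃ₐ[F] K)) →
      ∀ c : (K ≃ₐ[F] K) → (K ≃ₐ[F] K) → ZMod p, Pool.Agent.Helper59.EA.IsCoc p N c →
        (∀ Z : Subgroup (K ≃ₐ[F] K), D F Z → Pool.Agent.Helper59.EA.CobOn p Z c) →
          Pool.Agent.Helper59.EA.Cob p c

/-- FIN: finiteness of `E*/E*^p` -/
def S_FIN : Prop := ∀ (p : ℕ) [Fact p.Prime] (F E : Type) [Field F] [Field E] [Algebra F E]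
  [FiniteDimensional F E] [IsGalois F E], (∃ ζ : F, IsPrimitiveRoot ζ p) →
    Module.finrank F E = p → (powMonoidHom p : Fˣ →* Fˣ).range.index ≠ 0 →
      (powMonoidHom p : Eˣ →* Eˣ).range.index ≠ 0

/-- FG: finiteness of `F*/F*^p` -/
def S_FG : Prop := ∀ (p : ℕ) [Fact p.Prime] (F K : Type) [Field F] [Field K] [Algebra F K],
  (∃ ζ : F, IsPrimitiveRoot ζ p) → PCl p F K →
    (∃ S : Finset (K ≃ₐ[F] K),
      Dense ((Subgroup.closure (S : Set (K ≃ₐ[F] K)) : Set (K ≃ₐ[F] K)))) →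
    (powMonoidHom p : Fˣ →* Fˣ).range.index ≠ 0

/-- PCLK: the field of the frozen statement -/
def S_PCLK : Prop := ∀ (p : ℕ) [Fact p.Prime] (F : Type) [Field F],
  (∃ ζ : F, IsPrimitiveRoot ζ p) → ∀ K : IntermediateField F (AlgebraicClosure F),
    K = sSup {L : IntermediateField F (AlgebraicClosure F) |
      FiniteDimensional F L ∧ IsGalois F L ∧ ∃ k : ℕ, Module.finrank F L = p ^ k} → PCl p F K

/-- PCLUP: `K` is also the maximal `p`-extension of `E` -/
def S_PCLUP : Prop := ∀ (p : ℕ) [Fact p.Prime] (F E K : Type) [Field F] [Field E] [Field K]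
  [Algebra F E] [Algebra E K] [Algebra F K] [IsScalarTower F E K], PCl p F K → PCl p E K

/-- INERT: nontrivial inertia -/
def S_INERT : Prop := ∀ (p : ℕ) [Fact p.Prime] (F K : Type) [Field F] [Field K] [Algebra F K]
  (ζ : F), IsPrimitiveRoot ζ p → PCl p F K → ∀ W : ValuationSubring K,
    Top ζ (W.comap (algebraMap F K)) →
    (∃ c : Fˣ, ∀ f : Fˣ, (W.comap (algebraMap F K)).valuation ((c * f ^ p : Fˣ) : F) ≠ 1) →
      ∃ σ ∈ Dec F W, σ ≠ 1 ∧ ∀ x : K, x ∈ W → W.valuation (σ x - x) < 1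

end Pool.Agent.ETC
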