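import Mathlib
import Pool.Agent.Helper39.FAM.Pl
import Pool.Agent.Helper24.ETC.Cls

set_option autoImplicit false

/-! # Elementary Type Conjecture: interface for all primes `p` (second part) -/

namespace Pool.Agent.ETC

open Pool.Agent.Helper58.EU (Ordg)

section

variable {F K : Type} [Field F] [Field K] [Algebra F K]

/-- admissible places: not exceptional -/
def PlN {F : Type} [Field F] (p : ℕ) (ζ : F) (R : ValuationSubring F) : Prop :=
  Pl p ζ R ∧ NX p ζ R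

/-- `τ` is an involution -/
def Inv (τ : K ≃ₐ[F] K) : Prop := τ * τ = 1 ∧ τ ≠ 1

/-- `Z` is the decomposition group of an admissible place, or (`p = 2`) generated by an
involution -/
def Dz (p : ℕ) (Z : Subgroup (K ≃ₐ[F] K)) : Prop :=
  (∃ W : ValuationSubring K, Z = Dec F W ∧
    ∀ ζ : F, IsPrimitiveRoot ζ p → PlN p ζ (W.comap (algebraMap F K))) ∨
  (p = 2 ∧ ∃ τ : K ≃ₐ[F] K, Inv τ ∧ Z = Subgroup.zpowers τ)

/-- the elements fixed by `Z` are local `p`-th powers times elements of `F` -/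
def GenZ (p : ℕ) (Z : Subgroup (K ≃ₐ[F] K)) : Prop :=
  ∀ x : K, x ≠ 0 → (∀ σ ∈ Z, σ x = x) → ∃ (t : Fˣ) (l : K),
    (∀ σ ∈ Z, σ l = l) ∧ x = algebraMap F K (t : F) * l ^ p

/-- a family of groups of local `p`-th powers with their local groups -/
structure FamZ (p : ℕ) (ζ : F) {I : Type} (T : I → Subgroup Fˣ)
    (Z : I → Subgroup (K ≃ₐ[F] K)) : Prop where
  orth : Orth p T
  dz : ∀ i, Dz p (Z i)
  good : ∀ i, GoodZ p ζ (Z i) (T i)
  gen : ∀ i, GenZ p (Z i)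

end

/-- gluing of the symbols in `K₂` -/
def Glue {F : Type} [Field F] (p : ℕ) {I : Type} (T : I → Subgroup Fˣ) : Prop :=
  ∀ a b : Fˣ, (∀ i, Pool.Agent.Helper24.ETC.Sy (T i) a b) ↔
    Pool.Agent.Helper24.ETC.Sy (Pool.Agent.Helper24.ETC.pw F p) a b

/-- the pieces -/
def Piece {F : Type} [Field F] (p : ℕ) (ζ : F) (T : Subgroup Fˣ) : Prop :=
  (∃ R : ValuationSubring F, PlN p ζ R ∧ T = TR p ζ R) ∨ (p = 2 ∧ Ordg T)

/-- FAMA (helper39): existence of the family, all `p` -/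
def S_FAMA : Prop := ∀ (p : ℕ) [Fact p.Prime] (F : Type) [Field F] (ζ : F),
  IsPrimitiveRoot ζ p → (powMonoidHom p : Fˣ →* Fˣ).range.index ≠ 0 →
    ∃ (I : Type) (_ : Finite I) (T : I → Subgroup Fˣ), Orth p T ∧ Glue p T ∧
      ∀ i, Piece p ζ (T i)

/-- SINGLEA (helper24): every place or ordering is above a piece, all `p` -/
def S_SINGLEA : Prop := ∀ (p : ℕ) [Fact p.Prime] (F K : Type) [Field F] [Field K]
  [Algebra F K] (ζ : F), IsPrimitiveRoot ζ p → PCl p F K →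
    ∀ (I : Type) [Finite I] (T : I → Subgroup Fˣ), Orth p T → Glue p T →
      (∀ i, Piece p ζ (T i)) →
      (∀ R : ValuationSubring F, PlN p ζ R → ∃ i, T i ≤ TR p ζ R) ∧
      (p = 2 → ∀ P : Subgroup Fˣ, Ordg P → ∃ i, T i ≤ P)

/-- STARA (helper40): admissible places restrict to admissible places, all `p` -/
def S_STARA : Prop := ∀ (p : ℕ) [Fact p.Prime] (F E : Type) [Field F] [Field E]
  [Algebra F E] [FiniteDimensional F E] [IsGalois F E] (ζ : F), IsPrimitiveRoot ζ p →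
    Module.finrank F E = p → (powMonoidHom p : Fˣ →* Fˣ).range.index ≠ 0 →
    ∀ R : ValuationSubring E, PlN p (algebraMap F E ζ) R → PlN p ζ (R.comap (algebraMap F E))

/-- the part of STARA on exceptional places (helper90): `E/F` quadratic; if the place `R ∩ F` is
exceptional, then `R` is exceptional (or `E*/T(R)` is cyclic) -/
def S_STARNX : Prop := ∀ (F E : Type) [Field F] [Field E] [Algebra F E]
  [FiniteDimensional F E] [IsGalois F E] (ζ : F), IsPrimitiveRoot ζ 2 →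
    Module.finrank F E = 2 → (powMonoidHom 2 : Fˣ →* Fˣ).range.index ≠ 0 →
    ∀ R : ValuationSubring E, V1 2 (algebraMap F E ζ) R →
      V1 2 ζ (R.comap (algebraMap F E)) → NX 2 (algebraMap F E ζ) R →
        NX 2 ζ (R.comap (algebraMap F E))

/-- COMPV (helper40): the places above a piece of valuation type. The hypothesis `hu` says that the
piece is the only one (it comes from SINGLEA). -/
def S_COMPV : Prop := ∀ (p : ℕ) [Fact p.Prime] (F K : Type) [Field F] [Field K]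
  [Algebra F K] (ζ : F), IsPrimitiveRoot ζ p → PCl p F K →
    (powMonoidHom p : Fˣ →* Fˣ).range.index ≠ 0 →
    ∀ T : Subgroup Fˣ, (∃ R : ValuationSubring F, PlN p ζ R ∧ T = TR p ζ R) →
      (∀ O : ValuationSubring F, Pl p ζ O → TR p ζ O ≤ T → TR p ζ O = T) →
      ∃ W : ValuationSubring K, PlN p ζ (W.comap (algebraMap F K)) ∧
        TR p ζ (W.comap (algebraMap F K)) = T ∧
        ∀ V : ValuationSubring K, PlN p ζ (V.comap (algebraMap F K)) →
          T ≤ TR p ζ (V.comap (algebraMap F K)) →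
            ∃ g : K ≃ₐ[F] K, ∀ σ ∈ Dec F V, g⁻¹ * σ * g ∈ Dec F W

/-- V2O (helper14): no ordering contains a `p`-adic piece -/
def S_V2O : Prop := ∀ (F : Type) [Field F] (ζ : F), IsPrimitiveRoot ζ 2 →
  ∀ R : ValuationSubring F, V2 2 R → ∀ P : Subgroup Fˣ, Ordg P → ¬ TR 2 ζ R ≤ P

/-- COMPO (helper14): orderings above a tame place -/
def S_COMPO : Prop := ∀ (F K : Type) [Field F] [Field K] [Algebra F K] (ζ : F),
  IsPrimitiveRoot ζ 2 → PCl 2 F K → ∀ W : ValuationSubring K,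
    PlN 2 ζ (W.comap (algebraMap F K)) → ∀ τ : K ≃ₐ[F] K, Inv τ →
      (∀ t ∈ TR 2 ζ (W.comap (algebraMap F K)), Fx 2 (Subgroup.zpowers τ) t) →
        ∃ g : K ≃ₐ[F] K, g⁻¹ * τ * g ∈ Dec F W

/-- INVO (helper99): involutions give orderings -/
def S_INVO : Prop := ∀ (F K : Type) [Field F] [Field K] [Algebra F K] (ζ : F),
  IsPrimitiveRoot ζ 2 → PCl 2 F K → ∀ τ : K ≃ₐ[F] K, Inv τ →
    ∃ P : Subgroup Fˣ, Ordg P ∧ GoodZ 2 ζ (Subgroup.zpowers τ) P ∧ GenZ 2 (Subgroup.zpowers τ)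

/-- EXIST (helper99): orderings come from involutions -/
def S_EXIST : Prop := ∀ (F K : Type) [Field F] [Field K] [Algebra F K] (ζ : F),
  IsPrimitiveRoot ζ 2 → PCl 2 F K → ∀ P : Subgroup Fˣ, Ordg P →
    ∃ τ : K ≃ₐ[F] K, Inv τ ∧ ∀ t : Fˣ, t ∈ P ↔ Fx 2 (Subgroup.zpowers τ) t

/-- CONJINV (helper99): involutions with the same ordering are conjugate -/
def S_CONJINV : Prop := ∀ (F K : Type) [Field F] [Field K] [Algebra F K] (ζ : F),
  IsPrimitiveRoot ζ 2 → PCl 2 F K → ∀ τ τ' : K ≃ₐ[F] K, Inv τ → Inv τ' →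
    (∀ t : Fˣ, Fx 2 (Subgroup.zpowers τ) t → Fx 2 (Subgroup.zpowers τ') t) →
      ∃ g : K ≃ₐ[F] K, g⁻¹ * τ' * g = τ

/-- FAMZ (helper19, from the others) -/
def S_FAMZ : Prop := ∀ (p : ℕ) [Fact p.Prime] (F K : Type) [Field F] [Field K]
  [Algebra F K] (ζ : F), IsPrimitiveRoot ζ p → PCl p F K →
    (powMonoidHom p : Fˣ →* Fˣ).range.index ≠ 0 →
    ∃ (I : Type) (_ : Finite I) (T : I → Subgroup Fˣ) (Z : I → Subgroup (K ≃ₐ[F] K)),
      FamZ p ζ T Z

/-- COVER (helper19, from the others) -/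
def S_COVER : Prop := ∀ (p : ℕ) [Fact p.Prime] (F K : Type) [Field F] [Field K]
  [Algebra F K] (ζ : F), IsPrimitiveRoot ζ p → PCl p F K →
    (powMonoidHom p : Fˣ →* Fˣ).range.index ≠ 0 →
    ∃ (I : Type) (_ : Finite I) (T : I → Subgroup Fˣ) (Z : I → Subgroup (K ≃ₐ[F] K)),
      FamZ p ζ T Z ∧ ∀ Z' : Subgroup (K ≃ₐ[F] K), Dz p Z' →
        ∃ (i : I) (g : K ≃ₐ[F] K), ∀ σ ∈ Z', g⁻¹ * σ * g ∈ Z i

end Pool.Agent.ETC
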